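import Pool.Agent.R128.KDim

set_option autoImplicit false

/-!
# The number of `k`-irreducible posets grows exponentially (MP_f639ae_co, Q2)

`kdim k P` is the least `t` such that the poset `P` embeds (as an order) in `k ^ t`, modelled as
`Fin t → Fin k`; `P` is `k`-irreducible if every one-element deletion has smaller `k`-dimension;
`N k t` is the number of isomorphism classes of finite `k`-irreducible posets of `k`-dimension `t`,
as an element of `ℕ∞`.

The witnesses are ordinal sums of two- and three-element antichains with
`(t - 1) * (k - 1) + 1` elements altogether: they are pairwise non-isomorphic for different words,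
a rank argument in the distributive lattice `k ^ s` shows that such a sum with `n` elements embeds
in `k ^ s` only if `n ≤ s * (k - 1)`, and a round-robin assignment of the ranks to the
coordinates gives the embeddings of the sum in `k ^ t` and of its deletions in `k ^ (t - 1)`.
-/

namespace Pool.Agent.Results.MP_f639ae_co.NotPolynomial

open Pool.Agent.R128.KDim

/-- For every `k ≥ 2`: `N k t ≥ 2 ^ ⌊((t - 1) (k - 1) - 1) / 6⌋` for all `t ≥ 4`, and there are no
constants `c`, `C` with `N k t ≤ C * t ^ c` for all `t ≥ 1`. -/
theorem result : ∀ k : ℕ, 2 ≤ k →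
    (∀ t : ℕ, 4 ≤ t → ((2 ^ (((t - 1) * (k - 1) - 1) / 6) : ℕ) : ℕ∞) ≤ N k t) ∧
    ∀ c C : ℕ, ¬ ∀ t : ℕ, 1 ≤ t → N k t ≤ ((C * t ^ c : ℕ) : ℕ∞) := by
  intro k hk
  refine ⟨fun t ht => two_pow_le hk ht, fun c C h => ?_⟩
  obtain ⟨t, ht, hlt⟩ := not_poly hk c C
  exact absurd (h t ht) (not_le.2 hlt)

end Pool.Agent.Results.MP_f639ae_co.NotPolynomial
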